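import Pool.Agent.W314.BA.Stm
/-! BA-WA (MP_f2742c_an): walls far away do not contribute. -/
set_option autoImplicit false

namespace Pool.Agent.W741.BA.WA
open Pool.Agent.W314.BA

/-- `Lam` dominated by its first term -/
lemma key (g : G) (v : ℤ × ℤ × ℤ) (hv : v ∈ Vset) (h : hh g ^ 2 ≤ 3 * (v.1 : ℝ) ^ 2) :
    (Lam g v - 6 * v.1 * hh g) ^ 2 < (6 * v.1 * hh g) ^ 2 := by
  have h1 := one_le_hh g
  have hdet : g.1 0 0 * g.1 1 1 - g.1 0 1 * g.1 1 0 = 1 := by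
    have := g.2; rw [Matrix.det_fin_two] at this; exact this
  have hhe := hh_eq g
  obtain ⟨hv1, -⟩ := hv
  have hv2 : (v.2.1 : ℝ) ^ 2 + (v.2.2 : ℝ) ^ 2 = 1 + 3 * (v.1 : ℝ) ^ 2 := by exact_mod_cast hv1
  have hs : √(3:ℝ) ^ 2 = 3 := Real.sq_sqrt (by norm_num)
  set s := √(3:ℝ)
  set p : ℝ := (v.1 : ℝ)
  set q : ℝ := (v.2.1 : ℝ)
  set r : ℝ := (v.2.2 : ℝ)
  set a := g.1 0 0
  set b := g.1 0 1
  set c := g.1 1 0
  set d := g.1 1 1
  set H := hh g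
  have hL : Lam g v - 6 * p * H
      = s * (r * ((a ^ 2 + c ^ 2) - (b ^ 2 + d ^ 2)) - 2 * q * (a * b + c * d)) := by
    rw [hhe]
    show (3 * p + r * s) * (a ^ 2 + c ^ 2) - 2 * q * s * (a * b + c * d)
      + (3 * p - r * s) * (b ^ 2 + d ^ 2) - 6 * p * ((a ^ 2 + b ^ 2 + c ^ 2 + d ^ 2) / 2) = _
    ring
  rw [hL, mul_pow, hs]
  have e1 : ((a ^ 2 + c ^ 2) - (b ^ 2 + d ^ 2)) ^ 2 + (2 * (a * b + c * d)) ^ 2 = 4 * H ^ 2 - 4 := by
    have : ((a ^ 2 + c ^ 2) - (b ^ 2 + d ^ 2)) ^ 2 + (2 * (a * b + c * d)) ^ 2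
        = 4 * ((a ^ 2 + b ^ 2 + c ^ 2 + d ^ 2) / 2) ^ 2 - 4 * (a * d - b * c) ^ 2 := by ring
    rw [this, hdet, hhe]; ring
  have e2 : (r * ((a ^ 2 + c ^ 2) - (b ^ 2 + d ^ 2)) - 2 * q * (a * b + c * d)) ^ 2
      ≤ (1 + 3 * p ^ 2) * (4 * H ^ 2 - 4) := by
    rw [← hv2, ← e1]
    nlinarith [sq_nonneg (q * ((a ^ 2 + c ^ 2) - (b ^ 2 + d ^ 2)) + r * (2 * (a * b + c * d)))]
  nlinarith

theorem main : WalStmt := by
  intro g v hv h
  have hk := key g v hv h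
  have h1 := one_le_hh g
  have hiff : 0 < Lam g v ↔ 0 < v.1 := by
    have hp0 : (v.1 : ℝ) ≠ 0 := by
      intro h0
      rw [h0] at h
      nlinarith
    have habs := sq_lt_sq.1 hk
    constructor
    · intro hL
      by_contra hn
      have hneg : (v.1 : ℝ) < 0 := by
        have : v.1 ≤ 0 := not_lt.1 hn
        exact lt_of_le_of_ne (by exact_mod_cast this) hp0
      have h6 : 6 * (v.1 : ℝ) * hh g < 0 := by nlinarith
      rw [abs_of_neg h6] at habs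
      have := (abs_lt.1 habs).2
      linarith
    · intro hp
      have hpos : (0 : ℝ) < v.1 := by exact_mod_cast hp
      have h6 : 0 < 6 * (v.1 : ℝ) * hh g := by nlinarith
      rw [abs_of_pos h6] at habs
      have := (abs_lt.1 habs).1
      linarith
  unfold wal
  by_cases hp : 0 < v.1
  · rw [if_pos ⟨hv, hiff.2 hp⟩, if_pos ⟨hv, hp⟩, sub_self]
  · rw [if_neg (fun h => hp (hiff.1 h.2)), if_neg (fun h => hp h.2), sub_self]

end Pool.Agent.W741.BA.WA
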